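import Mathlib

set_option autoImplicit false

open Set Filter Topology

namespace Pool.Agent.Results.MP_6d6828_an.RelaxationGap

/-- The data of an instance. -/
structure Inst where
  n : ℕ
  h : ℝ
  A : ℝ
  J : ℝ
  ρ : ℝ
  wmax : ℕ → ℝ
  hn : 3 ≤ n
  hh : 0 < h
  hA : 0 < A
  hJ : 0 < J
  hρ : 0 < ρ
  hw : ∀ i, 2 ≤ i → i ≤ n - 1 → 0 < wmax i

/-- `h/√w`, with the convention `h/√0 = +∞`. -/
noncomputable def slow (h w : ℝ) : EReal := if w = 0 then ⊤ else ((h / Real.sqrt w : ℝ) : EReal)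

namespace Inst

variable (I : Inst)

/-- The quantity `Δw_i`. -/
noncomputable def jerk (w : ℕ → ℝ) (i : ℕ) : ℝ :=
  (w (i - 1) - (2 + I.ρ) * w i + w (i + 1)) / (I.h * I.J)

/-- The set `C`; a vector `(w_1, ..., w_n)` is given by a function on the natural numbers of which
only the entries with indices `1, ..., n` are used. -/
def InC (w : ℕ → ℝ) : Prop :=
  w 1 = 0 ∧ w I.n = 0 ∧ (∀ i, 2 ≤ i → i ≤ I.n - 1 → 0 ≤ w i ∧ w i ≤ I.wmax i) ∧
    ∀ i, 1 ≤ i → i ≤ I.n - 1 → |w (i + 1) - w i| ≤ I.h * I.A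

/-- Feasibility for (P). -/
def FeasP (w : ℕ → ℝ) : Prop :=
  I.InC w ∧ ∀ i, 2 ≤ i → i ≤ I.n - 1 → ((|I.jerk w i| : ℝ) : EReal) ≤ slow I.h (w i)

/-- The objective of (P). -/
noncomputable def objP (w : ℕ → ℝ) : EReal := ∑ i ∈ Finset.Icc 2 (I.n - 1), slow I.h (w i)

/-- Feasibility for (R). -/
def FeasR (w t : ℕ → ℝ) : Prop :=
  I.InC w ∧ ∀ i, 2 ≤ i → i ≤ I.n - 1 → slow I.h (w i) ≤ ((t i : ℝ) : EReal) ∧ |I.jerk w i| ≤ t i

/-- The objective of (R). -/
noncomputable def objR (t : ℕ → ℝ) : ℝ := ∑ i ∈ Finset.Icc 2 (I.n - 1), t i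

/-- The optimal value of (P). -/
noncomputable def valP : EReal := ⨅ (w : ℕ → ℝ) (_ : I.FeasP w), I.objP w

/-- The optimal value of (R). -/
noncomputable def valR : EReal :=
  ⨅ (w : ℕ → ℝ) (t : ℕ → ℝ) (_ : I.FeasR w t), ((I.objR t : ℝ) : EReal)

/-- Exactness of the relaxation. -/
def Exact : Prop :=
  I.valR = I.valP ∧ ∀ w t, I.FeasR w t → (∀ w' t', I.FeasR w' t' → I.objR t ≤ I.objR t') →
    I.FeasP w ∧ ∀ w', I.FeasP w' → I.objP w ≤ I.objP w'

end Inst

/-! ### The instance -/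

noncomputable def ex : Inst where
  n := 49
  h := 1
  A := 1
  J := 1.99
  ρ := 0.001
  wmax := fun i => if i = 25 then 1 else 11.5
  hn := by norm_num
  hh := one_pos
  hA := one_pos
  hJ := by norm_num
  hρ := by norm_num
  hw := by intro i _ _; split_ifs <;> norm_num

/-- the maximal speed profile -/
noncomputable def wh (i : ℕ) : ℝ :=
  if i ≤ 12 then (i : ℝ) - 1 else if i ≤ 14 then 11.5 else if i ≤ 25 then 26 - (i : ℝ)
  else if i ≤ 35 then (i : ℝ) - 24 else if i ≤ 37 then 11.5 else 49 - (i : ℝ)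

/-- rational upper bounds for the square roots of `2, ..., 11` -/
noncomputable def rt (l : ℕ) : ℝ :=
  if l = 1 then 1.415 else if l = 2 then 1.733 else if l = 3 then 2 else if l = 4 then 2.237
  else if l = 5 then 2.45 else if l = 6 then 2.646 else if l = 7 then 2.829
  else if l = 8 then 3 else if l = 9 then 3.163 else 3.317

/-- slopes: `κ_l ≤ (1+l)^{-3/2}/2` -/
noncomputable def kap (l : ℕ) : ℝ := 1 / (2 * (1 + (l : ℝ)) * rt l)

lemma rt_pos (l : ℕ) : 0 < rt l := by
  unfold rt; split_ifs <;> norm_num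

lemma kap_nonneg (l : ℕ) : 0 ≤ kap l := by
  have := rt_pos l
  unfold kap; positivity

lemma sqrt_le_rt (l : ℕ) (h1 : 1 ≤ l) (h2 : l ≤ 10) : Real.sqrt (1 + l) ≤ rt l := by
  rw [Real.sqrt_le_left (rt_pos l).le]
  unfold rt
  interval_cases l <;> norm_num

/-- tangent line bound for `1/√x` -/
lemma tangent {a x : ℝ} (ha : 0 < a) (hx : 0 < x) :
    1 / Real.sqrt a + (a - x) / (2 * a * Real.sqrt a) ≤ 1 / Real.sqrt x := by
  set r := Real.sqrt a with hr
  set s := Real.sqrt x with hs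
  have hr0 : 0 < r := Real.sqrt_pos.2 ha
  have hs0 : 0 < s := Real.sqrt_pos.2 hx
  have ha2 : a = r ^ 2 := (Real.sq_sqrt ha.le).symm
  have hx2 : x = s ^ 2 := (Real.sq_sqrt hx.le).symm
  rw [ha2, hx2]
  have e : 1 / s - (1 / r + (r ^ 2 - s ^ 2) / (2 * r ^ 2 * r)) =
      (s - r) ^ 2 * (s + 2 * r) / (2 * r ^ 3 * s) := by
    field_simp
    ring
  have h : 0 ≤ (s - r) ^ 2 * (s + 2 * r) / (2 * r ^ 3 * s) := by positivity
  linarith

/-- with the rational slope -/
lemma tangent' {l : ℕ} (h1 : 1 ≤ l) (h2 : l ≤ 10) {x : ℝ} (hx : 0 < x) (hxl : x ≤ 1 + l) :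
    1 / Real.sqrt (1 + l) + kap l * (1 + l - x) ≤ 1 / Real.sqrt x := by
  have hl : (0:ℝ) < 1 + l := by positivity
  refine le_trans ?_ (tangent hl hx)
  have h3 := sqrt_le_rt l h1 h2
  have hs : 0 < Real.sqrt (1 + (l : ℝ)) := Real.sqrt_pos.2 hl
  have h4 : kap l ≤ 1 / (2 * (1 + (l : ℝ)) * Real.sqrt (1 + l)) := by
    unfold kap
    apply one_div_le_one_div_of_le (by positivity)
    gcongr
  have h5 : kap l * (1 + l - x) ≤ 1 / (2 * (1 + (l : ℝ)) * Real.sqrt (1 + l)) * (1 + l - x) :=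
    mul_le_mul_of_nonneg_right h4 (by linarith)
  rw [div_mul_eq_mul_div, one_mul] at h5
  linarith

lemma antitone_bound {a x : ℝ} (hx : 0 < x) (hxa : x ≤ a) : 1 / Real.sqrt a ≤ 1 / Real.sqrt x := by
  apply one_div_le_one_div_of_le (Real.sqrt_pos.2 hx)
  exact Real.sqrt_le_sqrt hxa

section upper

variable {w : ℕ → ℝ} (hw : ex.InC w)

include hw

lemma step {i : ℕ} (h1 : 1 ≤ i) (h2 : i ≤ 48) : |w (i + 1) - w i| ≤ 1 := by
  have := hw.2.2.2 i h1 h2
  simpa [ex] using this

lemma left_bound (k : ℕ) (hk : k ≤ 48) : w (1 + k) ≤ k := by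
  induction k with
  | zero => have := hw.1; simp [this]
  | succ m ih =>
    have h1 := ih (by omega)
    have h2 := (abs_le.1 (step hw (i := 1 + m) (by omega) (by omega))).2
    push_cast
    have e : 1 + (m + 1) = 1 + m + 1 := by ring
    rw [e]; linarith

lemma right_bound (k : ℕ) (hk : k ≤ 48) : w (49 - k) ≤ k := by
  induction k with
  | zero =>
    have := hw.2.1
    have h2 : w 49 = 0 := this
    simp [h2]
  | succ m ih =>
    have h1 := ih (by omega)
    have h2 := (abs_le.1 (step hw (i := 49 - (m + 1)) (by omega) (by omega))).1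
    have e : 49 - (m + 1) + 1 = 49 - m := by omega
    rw [e] at h2
    have e' : ((m + 1 : ℕ) : ℝ) = m + 1 := by push_cast; ring
    rw [e']
    linarith

lemma up_right (k : ℕ) (hk : k ≤ 22) : w (26 + k) ≤ w 26 + k := by
  induction k with
  | zero => simp
  | succ m ih =>
    have h1 := ih (by omega)
    have h2 := (abs_le.1 (step hw (i := 26 + m) (by omega) (by omega))).2
    push_cast
    have e : 26 + (m + 1) = 26 + m + 1 := by ring
    rw [e]; linarith

lemma up_left (k : ℕ) (hk : k ≤ 22) : w (24 - k) ≤ w 24 + k := by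
  induction k with
  | zero => simp
  | succ m ih =>
    have h1 := ih (by omega)
    have h2 := (abs_le.1 (step hw (i := 24 - (m + 1)) (by omega) (by omega))).1
    have e : 24 - (m + 1) + 1 = 24 - m := by omega
    rw [e] at h2
    have e' : ((m + 1 : ℕ) : ℝ) = m + 1 := by push_cast; ring
    rw [e']
    linarith

lemma le_cap {i : ℕ} (h1 : 2 ≤ i) (h2 : i ≤ 48) : w i ≤ 11.5 := by
  have := (hw.2.2.1 i h1 h2).2
  refine this.trans ?_
  show (if i = 25 then (1:ℝ) else 11.5) ≤ 11.5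
  split_ifs <;> norm_num

lemma center_le : w 25 ≤ 1 := by
  have := (hw.2.2.1 25 (by norm_num) (by show 25 ≤ 48; norm_num)).2
  simpa [ex] using this

lemma nonneg {i : ℕ} (h1 : 2 ≤ i) (h2 : i ≤ 48) : 0 ≤ w i := (hw.2.2.1 i h1 h2).1

end upper

/-- lower bound for the terms of the objective of (P) -/
noncomputable def q (x y : ℝ) (i : ℕ) : ℝ :=
  1 / Real.sqrt (wh i) + (if 15 ≤ i ∧ i ≤ 24 then kap (25 - i) * x
    else if 26 ≤ i ∧ i ≤ 35 then kap (i - 25) * y else 0)

lemma slow_ge {x c : ℝ} (hx : 0 ≤ x) (h : 0 < x → c ≤ 1 / Real.sqrt x) :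
    ((c : ℝ) : EReal) ≤ slow 1 x := by
  unfold slow
  split_ifs with h0
  · exact le_top
  · exact EReal.coe_le_coe_iff.2 (h (lt_of_le_of_ne hx (Ne.symm h0)))

lemma term_ge {w : ℕ → ℝ} (hw : ex.InC w) {i : ℕ} (h1 : 2 ≤ i) (h2 : i ≤ 48) :
    ((q (2 - w 24) (2 - w 26) i : ℝ) : EReal) ≤ slow 1 (w i) := by
  apply slow_ge (nonneg hw h1 h2)
  intro hpos
  unfold q
  have hc := center_le hw
  have s24 := (abs_le.1 (step hw (i := 24) (by norm_num) (by norm_num))).1
  have s25 := (abs_le.1 (step hw (i := 25) (by norm_num) (by norm_num))).2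
  norm_num at s24 s25
  by_cases hA : 15 ≤ i ∧ i ≤ 24
  · rw [if_pos hA]
    obtain ⟨l, rfl⟩ : ∃ l, i = 25 - l := ⟨25 - i, by omega⟩
    have hl1 : 1 ≤ l := by omega
    have hl2 : l ≤ 10 := by omega
    have e1 : 25 - (25 - l) = l := by omega
    have e2 : wh (25 - l) = 1 + l := by
      unfold wh
      have a1 : ¬ (25 - l ≤ 12) := by omega
      have a2 : ¬ (25 - l ≤ 14) := by omega
      have a3 : 25 - l ≤ 25 := by omega
      rw [if_neg a1, if_neg a2, if_pos a3]
      rw [Nat.cast_sub (by omega)]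
      push_cast; ring
    rw [e1, e2]
    have h3 := up_left hw (l - 1) (by omega)
    have e3 : 24 - (l - 1) = 25 - l := by omega
    rw [e3, Nat.cast_sub hl1] at h3
    push_cast at h3
    have h4 := tangent' hl1 hl2 hpos (by linarith)
    have h5 : kap l * (2 - w 24) ≤ kap l * (1 + l - w (25 - l)) :=
      mul_le_mul_of_nonneg_left (by linarith) (kap_nonneg l)
    linarith
  · rw [if_neg hA]
    by_cases hB : 26 ≤ i ∧ i ≤ 35
    · rw [if_pos hB]
      obtain ⟨l, rfl⟩ : ∃ l, i = 25 + l := ⟨i - 25, by omega⟩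
      have hl1 : 1 ≤ l := by omega
      have hl2 : l ≤ 10 := by omega
      have e1 : 25 + l - 25 = l := by omega
      have e2 : wh (25 + l) = 1 + l := by
        unfold wh
        have a1 : ¬ (25 + l ≤ 12) := by omega
        have a2 : ¬ (25 + l ≤ 14) := by omega
        have a3 : ¬ (25 + l ≤ 25) := by omega
        have a4 : 25 + l ≤ 35 := by omega
        rw [if_neg a1, if_neg a2, if_neg a3, if_pos a4]
        push_cast; ring
      rw [e1, e2]
      have h3 := up_right hw (l - 1) (by omega)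
      have e3 : 26 + (l - 1) = 25 + l := by omega
      rw [e3, Nat.cast_sub hl1] at h3
      push_cast at h3
      have h4 := tangent' hl1 hl2 hpos (by linarith)
      have h5 : kap l * (2 - w 26) ≤ kap l * (1 + l - w (25 + l)) :=
        mul_le_mul_of_nonneg_left (by linarith) (kap_nonneg l)
      linarith
    · rw [if_neg hB, add_zero]
      apply antitone_bound hpos
      unfold wh
      split_ifs with a1 a2 a3 a4 a5
      · have := left_bound hw (i - 1) (by omega)
        have e : 1 + (i - 1) = i := by omega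
        rw [e, Nat.cast_sub (by omega)] at this
        push_cast at this; linarith
      · exact le_cap hw h1 h2
      · have : i = 25 := by omega
        subst this
        norm_num; exact hc
      · exfalso; omega
      · exact le_cap hw h1 h2
      · have := right_bound hw (49 - i) (by omega)
        have e : 49 - (49 - i) = i := by omega
        rw [e, Nat.cast_sub (by omega)] at this
        push_cast at this; linarith

/-- the reduction of the two neighbours of the central node forced by the jerk constraint -/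
lemma reduction {w : ℕ → ℝ} (hw : ex.FeasP w) : 0.009 ≤ (2 - w 24) + (2 - w 26) := by
  have hC := hw.1
  have hc := center_le hC
  have hc0 := nonneg hC (i := 25) (by norm_num) (by norm_num)
  have s24 := (abs_le.1 (step hC (i := 24) (by norm_num) (by norm_num))).1
  have s25 := (abs_le.1 (step hC (i := 25) (by norm_num) (by norm_num))).2
  norm_num at s24 s25
  by_cases hsmall : w 25 ≤ 0.9955
  · linarith
  · push Not at hsmall
    have hj := hw.2 25 (by norm_num) (by show 25 ≤ 48; norm_num)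
    have hne : w 25 ≠ 0 := by linarith
    unfold slow at hj
    rw [if_neg hne, EReal.coe_le_coe_iff] at hj
    have hj2 := (le_abs_self _).trans hj
    have e : ex.jerk w 25 = (w 24 - (2 + 0.001) * w 25 + w 26) / (1 * 1.99) := rfl
    have e2 : ex.h = 1 := rfl
    rw [e, e2] at hj2
    set s := Real.sqrt (w 25) with hs
    have hs0 : 0 < s := Real.sqrt_pos.2 (by linarith)
    have hs2 : w 25 = s ^ 2 := (Real.sq_sqrt hc0).symm
    have hs1 : s ≤ 1 := by rw [hs]; exact Real.sqrt_le_one.2 hc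
    have hs3 : 0.997 ≤ s := by
      by_contra hcon
      push Not at hcon
      nlinarith
    rw [div_le_iff₀ (by norm_num)] at hj2
    have h1 : 1 / s ≤ 1 + (1 - s) * 1.004 := by
      rw [div_le_iff₀ hs0]
      nlinarith
    rw [hs2] at hj2
    nlinarith

lemma kap_sum : 1 / 1.99 < kap 1 + kap 2 + kap 3 + kap 4 + kap 5 + kap 6 + kap 7 + kap 8 + kap 9 +
    kap 10 := by
  unfold kap rt
  norm_num

lemma coe_sum_ereal (s : Finset ℕ) (f : ℕ → ℝ) :
    ((∑ i ∈ s, f i : ℝ) : EReal) = ∑ i ∈ s, ((f i : ℝ) : EReal) := by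
  induction s using Finset.induction_on with
  | empty => simp
  | insert a s ha ih => rw [Finset.sum_insert ha, Finset.sum_insert ha, EReal.coe_add, ih]

/-- the base value -/
noncomputable def base : ℝ := ∑ i ∈ Finset.Icc 2 48, 1 / Real.sqrt (wh i)

lemma sum_q (x y : ℝ) : ∑ i ∈ Finset.Icc 2 48, q x y i = base +
    (kap 1 + kap 2 + kap 3 + kap 4 + kap 5 + kap 6 + kap 7 + kap 8 + kap 9 + kap 10) * (x + y) := by
  unfold q base
  rw [Finset.sum_add_distrib]
  congr 1
  have h1 : Finset.Icc 2 48 = Finset.Icc 2 14 ∪ Finset.Icc 15 24 ∪ Finset.Icc 25 25 ∪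
      Finset.Icc 26 35 ∪ Finset.Icc 36 48 := by decide
  simp only [Finset.sum_Icc_succ_top, Nat.reduceLeDiff, Nat.reduceAdd, Finset.Icc_self,
    Finset.sum_singleton]
  norm_num
  ring

lemma valP_ge : ((base + 0.009 * (kap 1 + kap 2 + kap 3 + kap 4 + kap 5 + kap 6 + kap 7 + kap 8 +
    kap 9 + kap 10) : ℝ) : EReal) ≤ ex.valP := by
  refine le_iInf₂ fun w hw => ?_
  have h1 : ((∑ i ∈ Finset.Icc 2 48, q (2 - w 24) (2 - w 26) i : ℝ) : EReal) ≤ ex.objP w := by
    rw [coe_sum_ereal]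
    unfold Inst.objP
    apply Finset.sum_le_sum
    intro i hi
    have hi' := Finset.mem_Icc.1 hi
    exact term_ge hw.1 hi'.1 hi'.2
  refine le_trans ?_ h1
  rw [EReal.coe_le_coe_iff, sum_q]
  have h2 := reduction hw
  have h3 := kap_sum
  have h4 : 0 ≤ kap 1 + kap 2 + kap 3 + kap 4 + kap 5 + kap 6 + kap 7 + kap 8 + kap 9 + kap 10 := by
    linarith [show (0:ℝ) < 1 / 1.99 by norm_num]
  have h5 := mul_le_mul_of_nonneg_left h2 h4
  linarith

/-- the relaxed slack variables -/
noncomputable def tt (i : ℕ) : ℝ := if i = 25 then 1.999 / 1.99 else 1 / Real.sqrt (wh i)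

lemma wh_bounds {i : ℕ} (h1 : 2 ≤ i) (h2 : i ≤ 48) : 1 ≤ wh i ∧ wh i ≤ 11.5 := by
  interval_cases i <;> unfold wh <;> norm_num

lemma wh_step {i : ℕ} (h1 : 1 ≤ i) (h2 : i ≤ 48) : |wh (i + 1) - wh i| ≤ 1 := by
  interval_cases i <;> unfold wh <;> norm_num [abs_le]

lemma wh_jerk {i : ℕ} (h1 : 2 ≤ i) (h2 : i ≤ 48) (h3 : i ≠ 25) :
    |(wh (i - 1) - (2 + 0.001) * wh i + wh (i + 1)) / (1 * 1.99)| ≤ 0.26 := by
  interval_cases i <;> first | exact absurd rfl h3 | (unfold wh; norm_num [abs_le])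

lemma wh_inC : ex.InC wh := by
  refine ⟨?_, ?_, ?_, ?_⟩
  · unfold wh; norm_num
  · show wh 49 = 0
    unfold wh; norm_num
  · intro i h1 h2
    obtain ⟨h3, h4⟩ := wh_bounds h1 h2
    refine ⟨by linarith, ?_⟩
    show wh i ≤ if i = 25 then (1:ℝ) else 11.5
    split_ifs with h
    · subst h; unfold wh; norm_num
    · exact h4
  · intro i h1 h2
    have := wh_step h1 h2
    simpa [ex] using this

lemma wh_feasR : ex.FeasR wh tt := by
  refine ⟨wh_inC, fun i h1 h2 => ?_⟩
  obtain ⟨h3, h4⟩ := wh_bounds h1 h2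
  have hne : wh i ≠ 0 := by linarith
  have hs : 0 < Real.sqrt (wh i) := Real.sqrt_pos.2 (by linarith)
  have e : ex.jerk wh i = (wh (i - 1) - (2 + 0.001) * wh i + wh (i + 1)) / (1 * 1.99) := rfl
  have e2 : ex.h = 1 := rfl
  rw [e, e2]
  unfold slow
  rw [if_neg hne, EReal.coe_le_coe_iff]
  unfold tt
  by_cases h : i = 25
  · rw [if_pos h, h]
    constructor
    · have : wh 25 = 1 := by unfold wh; norm_num
      rw [this, Real.sqrt_one]; norm_num
    · unfold wh; norm_num [abs_le]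
  · rw [if_neg h]
    refine ⟨le_rfl, (wh_jerk h1 h2 h).trans ?_⟩
    have h5 : Real.sqrt (wh i) ≤ 3.4 := by
      rw [Real.sqrt_le_left (by norm_num)]
      linarith
    calc (0.26:ℝ) ≤ 1 / 3.4 := by norm_num
      _ ≤ 1 / Real.sqrt (wh i) := one_div_le_one_div_of_le hs h5

lemma sum_tt : ex.objR tt = base + 0.009 / 1.99 := by
  show ∑ i ∈ Finset.Icc 2 48, tt i = _
  unfold base
  have h1 : ∀ i ∈ Finset.Icc 2 48, tt i = 1 / Real.sqrt (wh i) +
      (if i = 25 then (0.009 / 1.99 : ℝ) else 0) := by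
    intro i _
    unfold tt
    split_ifs with h
    · have : wh 25 = 1 := by unfold wh; norm_num
      rw [h, this, Real.sqrt_one]; norm_num
    · rw [add_zero]
  rw [Finset.sum_congr rfl h1, Finset.sum_add_distrib, Finset.sum_ite_eq']
  simp

/-- There is an instance for which the convex relaxation (R) is not exact: its optimal value is
strictly smaller than that of (P). -/
theorem result : ∃ I : Inst, I.valR < I.valP ∧ ¬ I.Exact := by
  have h : ex.valR < ex.valP := by
    refine lt_of_le_of_lt (b := ((base + 0.009 / 1.99 : ℝ) : EReal)) ?_ (lt_of_lt_of_le ?_ valP_ge)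
    · refine iInf_le_of_le wh (iInf_le_of_le tt (iInf_le_of_le wh_feasR ?_))
      rw [sum_tt]
    · rw [EReal.coe_lt_coe_iff]
      have := kap_sum
      have h2 : (0.009:ℝ) / 1.99 = 0.009 * (1 / 1.99) := by ring
      rw [h2]
      linarith
  exact ⟨ex, h, fun he => absurd he.1 h.ne⟩

end Pool.Agent.Results.MP_6d6828_an.RelaxationGap
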